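/-
MP_a627f3_an : maximal ratio of principal eigenvalues of the p- and q-Laplacian among convex
domains (Parini's conjecture).

For every d ≥ 2 and 1 < q < p < ∞, the supremum of λ_p^{1/p}(Ω)/λ_q^{1/q}(Ω) over all convex open
Ω ⊆ ℝ^d of finite positive volume equals π_p/π_q, and it is not attained.
-/
import Pool.Agent.Lib.MP_a627f3_an.Strict

open MeasureTheory Set

namespace Pool.Agent.Results.MP_a627f3_an.PariniConjecture

/-- `C¹` functions with compact support contained in `Ω`, not identically zero. -/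
def TestFunction {E : Type*} [NormedAddCommGroup E] [NormedSpace ℝ E] (Ω : Set E) (u : E → ℝ) :
    Prop :=
  ContDiff ℝ 1 u ∧ HasCompactSupport u ∧ tsupport u ⊆ Ω ∧ ∃ x, u x ≠ 0

/-- The principal Dirichlet eigenvalue of the `p`-Laplacian on `Ω`: the infimum of
`∫_Ω |∇u|^p / ∫_Ω |u|^p` over all nonzero `u ∈ C¹_c(Ω)`. -/
noncomputable def eigenvalue {E : Type*} [NormedAddCommGroup E] [NormedSpace ℝ E] [MeasureSpace E]
    (p : ℝ) (Ω : Set E) : ℝ :=
  sInf {R | ∃ u : E → ℝ, TestFunction Ω u ∧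
    R = (∫ x in Ω, ‖fderiv ℝ u x‖ ^ p) / ∫ x in Ω, |u x| ^ p}

/-- The scale-invariant ratio `F_{p,q}(Ω) = λ_p^{1/p}(Ω) / λ_q^{1/q}(Ω)`. -/
noncomputable def ratio {E : Type*} [NormedAddCommGroup E] [NormedSpace ℝ E] [MeasureSpace E]
    (p q : ℝ) (Ω : Set E) : ℝ :=
  eigenvalue p Ω ^ (1 / p) / eigenvalue q Ω ^ (1 / q)

/-- The one-dimensional constant `π_p = λ_p^{1/p}((0,1))`. -/
noncomputable def piP (p : ℝ) : ℝ := eigenvalue p (Ioo (0 : ℝ) 1) ^ (1 / p)

/-- The class of convex open sets of `ℝ^d` with finite positive volume. -/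
def ConvexClass (d : ℕ) : Set (Set (EuclideanSpace ℝ (Fin d))) :=
  {Ω | IsOpen Ω ∧ Convex ℝ Ω ∧ 0 < volume Ω ∧ volume Ω < ⊤}

/-- Parini's conjecture for `1 < q < p < ∞`: the supremum of `F_{p,q}` over the convex class is
`π_p/π_q`, and no convex set attains it. (The eigenvalues involved are positive, so the quotients
are genuine.) -/
theorem result (d : ℕ) (hd : 2 ≤ d) (p q : ℝ) (hq : 1 < q) (hqp : q < p) :
    (0 < piP p ∧ 0 < piP q) ∧
    (∀ Ω ∈ ConvexClass d, 0 < eigenvalue p Ω ∧ 0 < eigenvalue q Ω) ∧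
    IsLUB {F : ℝ | ∃ Ω ∈ ConvexClass d, F = ratio p q Ω} (piP p / piP q) ∧
    ∀ Ω ∈ ConvexClass d, ratio p q Ω < piP p / piP q := by
  have hp : 1 < p := hq.trans hqp
  have hTp := PLap.Tp_pos hp
  have hTq := PLap.Tp_pos hq
  have hπp : piP p = 2 * PLap.Tp p := by
    have h : piP p = PLap.lam p (Ioo (0:ℝ) 1) ^ (1 / p) := rfl
    rw [h, PLap.lam_interval hp, ← Real.rpow_mul (by positivity), mul_one_div_cancel (by linarith),
      Real.rpow_one]
  have hπq : piP q = 2 * PLap.Tp q := by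
    have h : piP q = PLap.lam q (Ioo (0:ℝ) 1) ^ (1 / q) := rfl
    rw [h, PLap.lam_interval hq, ← Real.rpow_mul (by positivity), mul_one_div_cancel (by linarith),
      Real.rpow_one]
  have hdim : 2 ≤ Module.finrank ℝ (EuclideanSpace ℝ (Fin d)) := by simpa using hd
  have hnt : Nontrivial (EuclideanSpace ℝ (Fin d)) :=
    Module.nontrivial_of_finrank_pos (R := ℝ) (by omega)
  have hcl : ∀ Ω ∈ ConvexClass d, IsOpen Ω ∧ Convex ℝ Ω ∧ Bornology.IsBounded Ω ∧ Ω.Nonempty := by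
    rintro Ω ⟨hΩ, hcv, hv0, hv1⟩
    have hne : Ω.Nonempty := by
      by_contra h
      rw [not_nonempty_iff_eq_empty] at h
      rw [h, measure_empty] at hv0
      exact lt_irrefl _ hv0
    exact ⟨hΩ, hcv, PLap.bounded_of_volume_lt_top hΩ hcv hne hv1, hne⟩
  refine ⟨⟨by rw [hπp]; positivity, by rw [hπq]; positivity⟩, ?_, ?_, ?_⟩
  · intro Ω hΩ
    obtain ⟨h1, h2, h3, h4⟩ := hcl Ω hΩ
    exact ⟨PLap.lam_pos hp h1 h4 h3, PLap.lam_pos hq h1 h4 h3⟩
  · have h := PLap.sup_value d hd p q hq hqp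
    have hset : {F : ℝ | ∃ Ω ∈ ConvexClass d, F = ratio p q Ω} =
        {F : ℝ | ∃ Ω : Set (EuclideanSpace ℝ (Fin d)), IsOpen Ω ∧ Convex ℝ Ω ∧
          0 < volume Ω ∧ volume Ω < ⊤ ∧
          F = PLap.lam p Ω ^ (1 / p) / PLap.lam q Ω ^ (1 / q)} := by
      ext F
      constructor
      · rintro ⟨Ω, ⟨h1, h2, h3, h4⟩, h5⟩
        exact ⟨Ω, h1, h2, h3, h4, h5⟩
      · rintro ⟨Ω, h1, h2, h3, h4, h5⟩
        exact ⟨Ω, ⟨h1, h2, h3, h4⟩, h5⟩
    rw [hset]
    exact h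
  · intro Ω hΩ
    obtain ⟨h1, h2, h3, h4⟩ := hcl Ω hΩ
    have h := PLap.ratio_lt hdim h1 h2 h3 h4 hq hqp
    have h5 : piP p / piP q = PLap.Tp p / PLap.Tp q := by
      rw [hπp, hπq]; field_simp
    rw [h5]
    exact h

end Pool.Agent.Results.MP_a627f3_an.PariniConjecture
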